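import Mathlib

namespace Pool.Agent.H.MP_46dc5d_co
open Finset Function

def Goal (n m : ℕ) : Prop :=
  ∃ L : Fin n → Fin n → Fin n,
    (∀ i, Function.Injective (L i)) ∧
    (∀ j, Function.Injective (fun i => L i j)) ∧
    (∃ S : Finset (Equiv.Perm (Fin n)), S.card = m ∧
      (∀ σ ∈ S, Function.Injective (fun i => L i (σ i))) ∧
      (∀ σ ∈ S, ∀ τ ∈ S, σ ≠ τ → ∀ i, σ i ≠ τ i)) ∧
    ∀ S : Finset (Equiv.Perm (Fin n)),
      (∀ σ ∈ S, Function.Injective (fun i => L i (σ i))) →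
      (∀ σ ∈ S, ∀ τ ∈ S, σ ≠ τ → ∀ i, σ i ≠ τ i) →
      S.card ≤ m

theorem modeq {n a b : ℕ} : a % n = b % n ↔ (n : ℤ) ∣ (a : ℤ) - b := by
  rw [← neg_sub, dvd_neg]; exact Nat.modEq_iff_dvd

theorem sum_inj {n : ℕ} (f : Fin n → Fin n) (hf : Injective f) :
    ∑ i, ((f i : ℕ) : ℤ) = ∑ i : Fin n, ((i : ℕ) : ℤ) :=
  Equiv.sum_comp (Equiv.ofBijective f (Finite.injective_iff_bijective.1 hf)) (fun i => ((i : ℕ) : ℤ))

theorem layer1 (h m : ℕ) (hh : 0 < h) (P : ℕ → ℕ → ℕ) (ι K : Type) [Fintype ι] [Fintype K]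
    (σ : ι → ℕ → ℕ) (hit : ℕ → ℕ → K → Prop) (hι : Fintype.card ι = m) (hK : Fintype.card K ≤ m)
    (row : ∀ r < 2 * h, ∀ c < 2 * h, ∀ c' < 2 * h,
      ((2 * h : ℕ) : ℤ) ∣ (P r c + c : ℕ) - (P r c' + c' : ℕ) → c = c')
    (col : ∀ c < 2 * h, ∀ r < 2 * h, ∀ r' < 2 * h, ((2 * h : ℕ) : ℤ) ∣ (P r c : ℤ) - P r' c → r = r')
    (s1 : ∀ i, ∀ r < 2 * h, σ i r < 2 * h)
    (s2 : ∀ i, ∀ r < 2 * h, ∀ r' < 2 * h, σ i r = σ i r' → r = r')
    (s3 : ∀ i, ∀ r < 2 * h, ∀ r' < 2 * h, ((2 * h : ℕ) : ℤ) ∣ (P r (σ i r) + σ i r : ℕ) -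
      (P r' (σ i r') + σ i r' : ℕ) → r = r')
    (s4 : ∀ i j, i ≠ j → ∀ r < 2 * h, σ i r ≠ σ j r)
    (hu : ∀ k, ∀ r < 2 * h, ∀ c < 2 * h, ∀ r' < 2 * h, ∀ c' < 2 * h, hit r c k → hit r' c' k →
      r = r' ∧ c = c')
    (ub : ∀ s : ℕ → ℕ, (∀ r < 2 * h, s r < 2 * h) →
      (∀ r < 2 * h, ∀ r' < 2 * h, r ≠ r' → s r ≠ s r' ∧
        ¬((2 * h : ℕ) : ℤ) ∣ (P r (s r) + s r : ℕ) - (P r' (s r') + s r' : ℕ)) →
      ((2 * h : ℕ) : ℤ) ∣ ∑ r ∈ range (2 * h), ((P r (s r) : ℤ) - r) - h →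
      ∃ r < 2 * h, ∃ k, hit r (s r) k) : Goal (2 * h) m := by
  classical
  have hn : 0 < 2 * h := by omega
  let L : Fin (2 * h) → Fin (2 * h) → Fin (2 * h) := fun r c => ⟨(P r c + c) % (2 * h), Nat.mod_lt _ hn⟩
  have hL : ∀ r c r' c', L r c = L r' c' ↔
      ((2 * h : ℕ) : ℤ) ∣ (P r c + c : ℕ) - (P r' c' + c' : ℕ) := fun r c r' c' => by
    rw [Fin.ext_iff]; exact modeq
  let f : ι → Fin (2 * h) → Fin (2 * h) := fun i r => ⟨σ i r, s1 i r r.2⟩
  have hf : ∀ i, Bijective (f i) := fun i => Finite.injective_iff_bijective.1 fun r r' e =>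
    Fin.ext (s2 i r r.2 r' r'.2 (congrArg Fin.val e))
  let p : ι → Equiv.Perm (Fin (2 * h)) := fun i => Equiv.ofBijective (f i) (hf i)
  have hp : ∀ i j, i ≠ j → ∀ r, p i r ≠ p j r := fun i j hij r e =>
    s4 i j hij r r.2 (congrArg Fin.val e)
  refine ⟨L, fun r c c' e => Fin.ext (row r r.2 c c.2 c' c'.2 ((hL _ _ _ _).1 e)),
    fun c r r' e => Fin.ext (col c c.2 r r.2 r' r'.2 ?_), ⟨univ.image p, ?_, ?_, ?_⟩, ?_⟩
  · have := (hL _ _ _ _).1 e
    push_cast at this ⊢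
    rwa [add_sub_add_right_eq_sub] at this
  · rw [card_image_of_injective _ fun i j e => by
      by_contra hij
      exact hp i j hij ⟨0, hn⟩ (by rw [e]), card_univ, hι]
  · intro s hs r r' e
    obtain ⟨i, -, rfl⟩ := mem_image.1 hs
    exact Fin.ext (s3 i r r.2 r' r'.2 ((hL _ _ _ _).1 e))
  · intro s hs t ht hst
    obtain ⟨i, -, rfl⟩ := mem_image.1 hs
    obtain ⟨j, -, rfl⟩ := mem_image.1 ht
    exact hp i j fun e => hst (by rw [e])
  · intro S h1 h2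
    have key : ∀ s ∈ S, ∃ k, ∃ r : Fin (2 * h), hit r (s r) k := by
      intro s hs
      let g : ℕ → ℕ := fun r => if hr : r < 2 * h then s ⟨r, hr⟩ else 0
      have hg : ∀ r : Fin (2 * h), g r = s r := fun r => dif_pos r.2
      obtain ⟨r, hr, k, hk⟩ := ub g (fun r hr => by rw [hg ⟨r, hr⟩]; exact (s _).2)
        (fun r hr r' hr' hne => by
          have e1 := hg ⟨r, hr⟩
          have e2 := hg ⟨r', hr'⟩
          simp only at e1 e2
          rw [e1, e2]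
          exact ⟨fun e => hne (congrArg Fin.val (s.injective (Fin.ext e))),
            fun e => hne (congrArg Fin.val (h1 s hs ((hL ⟨r, hr⟩ _ ⟨r', hr'⟩ _).2 e)))⟩) (by
          rw [← Fin.sum_univ_eq_sum_range (fun r => (P r (g r) : ℤ) - r)]
          simp only [hg]
          have a1 := sum_inj _ (h1 s hs)
          have a2 := sum_inj _ s.injective
          have a3 : ∑ i : Fin (2 * h), ((i : ℕ) : ℤ) = h * (2 * h - 1) := by
            rw [Fin.sum_univ_eq_sum_range (fun r => (r : ℤ)), ← Nat.cast_sum]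
            have := sum_range_id_mul_two (2 * h)
            have b : ((∑ i ∈ range (2 * h), i : ℕ) : ℤ) * 2 = 2 * h * (2 * h - 1) := by
              have := congrArg (Nat.cast : ℕ → ℤ) this
              push_cast [Nat.cast_sub hn] at this ⊢
              exact this
            linarith
          have a4 : ((2 * h : ℕ) : ℤ) ∣ ∑ i : Fin (2 * h),
              (((P i (s i) + s i : ℕ) : ℤ) - ((L i (s i) : ℕ) : ℤ)) :=
            dvd_sum fun i _ => modeq.1 (Nat.mod_mod _ _).symm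
          rw [sum_sub_distrib, a1] at a4
          push_cast at a4 ⊢
          rw [sum_add_distrib, a2] at a4
          rw [sum_sub_distrib, a3]
          rw [add_sub_cancel_right] at a4
          have : ∑ i : Fin (2 * h), (P i (s i) : ℤ) - h * (2 * h - 1) - h =
            ∑ i : Fin (2 * h), (P i (s i) : ℤ) - 2 * h * h := by ring
          rw [this]
          exact dvd_sub a4 (dvd_mul_right _ _))
      exact ⟨k, ⟨r, hr⟩, by rw [← hg ⟨r, hr⟩]; exact hk⟩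
    choose k r hk using key
    calc S.card = Fintype.card S := (Fintype.card_coe S).symm
      _ ≤ Fintype.card K := Fintype.card_le_of_injective (fun s : S => k s.1 s.2) fun s t e => by
          by_contra hne
          have e' : k s.1 s.2 = k t.1 t.2 := e
          have := hu _ _ (r s.1 s.2).2 _ (s.1 _).2 _ (r t.1 t.2).2 _ (t.1 _).2 (hk s.1 s.2)
            (e' ▸ hk t.1 t.2)
          have e1 : r s.1 s.2 = r t.1 t.2 := Fin.ext this.1
          refine h2 s.1 s.2 t.1 t.2 (fun e => hne (Subtype.ext e)) (r s.1 s.2) (Fin.ext ?_)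
          rw [this.2, e1]
      _ ≤ m := hK

end Pool.Agent.H.MP_46dc5d_co
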