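import Pool.Agent.H.MP_46dc5d_co.A

namespace Pool.Agent.H.MP_46dc5d_co
open Finset Function

structure Cert where
  η : ℕ
  X : ℕ
  W : ℕ
  w : ℕ
  Z : ℕ
  b : ℕ
  D : ℕ
  ρ : ℕ
  t : ℕ
  s : ℕ
  S : ℕ
  gs : List ℕ
  V : ℕ
  hs : List (ℕ × ℕ)
  ub : List (ℕ × ℕ)
  T : ℕ

def rh0 (q X y : ℕ) : ℕ := if y < q then min y X else X + 1 + min (y - q) X
def rho (q h X r : ℕ) : ℕ := if r < h then rh0 q X r else rh0 q X (r - h)
def tau (q h X r : ℕ) : ℕ := if r < h then rh0 q X r else 2 * X + 2 + rh0 q X (r - h)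
def kap (h W x : ℕ) : ℕ := if x < h then min x W else W + 1 + min (x - h) W
def cls (W g : ℕ) : ℕ := if g ≤ W then 0 else 1
def off (W g : ℕ) : ℕ := if g ≤ W then g else g - (W + 1)
def rowOf (h W g : ℕ) : ℕ := off W g + h * cls W g

def Inj (n : ℕ) (f : ℕ → ℕ) : Prop := ∀ r < n, ∀ r' < n, f r % n = f r' % n → r = r'

namespace Cert
variable (C : Cert) (q : ℕ)

def h : ℕ := 2 * q + C.η
def v (g ct : ℕ) : ℕ := C.V >>> (8 * (g * (2 * C.W + 2) + ct)) % 256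
def e (i r : ℕ) : ℕ := C.T >>> (8 * (i * (4 * C.X + 4) + tau q (C.h q) C.X r)) % 256
def dl (i r : ℕ) : ℕ := C.e q i r % 128
def bt (i r : ℕ) : ℕ := C.e q i r / 128
def k (x : ℕ) : ℕ := kap (C.h q) C.W x
def rh (x : ℕ) : ℕ := rho q (C.h q) C.X x
def sg (i k r : ℕ) : ℕ :=
  (r + C.dl q i r + 2 * k + C.h q * C.bt q i r + (2 * C.h q - C.Z)) % (2 * C.h q)
def ct (i r : ℕ) : ℕ := if i < C.t then C.k q (C.sg q i 0 r)
  else (cls C.W (C.k q r) + C.bt q i r) % 2 * (C.W + 1) + C.W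
def ga (i r : ℕ) : ℕ := if C.k q r ∈ C.gs then
  C.dl q i r + off C.W (C.v (C.k q r) (C.ct q i r)) + C.W - off C.W (C.k q r) else C.dl q i r + C.W
def ep (i r : ℕ) : ℕ := if C.k q r ∈ C.gs then
    C.bt q i r + cls C.W (C.v (C.k q r) (C.ct q i r)) + cls C.W (C.k q r)
  else if i < C.t then (if (C.rh q r, C.dl q i r) ∈ C.ub then C.bt q i r + 1 else C.bt q i r)
  else if C.rh q r = C.ρ ∧ C.dl q i r = C.D + C.b + 1 then C.bt q i r + 1 else C.bt q i r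
def sy (g c : ℕ) : ℕ := (rowOf (C.h q) C.W (C.v g c) + rowOf (C.h q) C.W c) % (2 * C.h q)

def Win (p : ℕ) : Prop := p < C.X ∨ C.X + 1 ≤ p ∧ p < 2 * C.X + 1

/-- conditions that do not depend on `q` -/
def Fix : Prop := C.gs.Nodup ∧ (∀ g ∈ C.gs, off C.W g < C.W ∧ g < 2 * C.W + 2) ∧
  (∀ c < 2 * C.W + 2, ∀ g ∈ C.gs, C.v g c ∈ C.gs ∧ ∀ g' ∈ C.gs, C.v g c = C.v g' c → g = g') ∧
  (∀ p ∈ C.ub, C.Win p.1 ∧ C.D ≤ p.2 ∧ p.2 < C.D + C.b) ∧ C.Win C.ρ ∧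
  (∀ p ∈ C.hs, off C.W p.1 < C.W ∧ off C.W p.2 < C.W) ∧ C.hs.length + 4 * C.ub.length ≤ C.t ∧
  (C.s = 0 ∨ C.s = 4) ∧ ∀ g ∈ C.gs, ∀ y < C.W, C.w ≤ y →
    C.v g y = C.v g C.W ∧ C.v g (C.W + 1 + y) = C.v g (2 * C.W + 1)

def Row (r : ℕ) : Prop :=
  (C.k q r ∈ C.gs → (∀ p ∈ C.ub, C.rh q r ≠ p.1) ∧ (C.s = 4 → C.rh q r ≠ C.ρ)) ∧
  (∀ i < C.t + C.s, C.dl q i r ≤ C.S) ∧
  (∀ i < C.t, C.k q r ∉ C.gs → C.D ≤ C.dl q i r ∧ C.dl q i r < C.D + C.b) ∧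
  ∀ j < C.s,
    (C.k q r ∉ C.gs → C.D + C.b ≤ C.dl q (C.t + j) r ∧ C.dl q (C.t + j) r ≤ C.D + C.b + 1) ∧
    (C.k q r ∈ C.gs → C.Z + C.w ≤ off C.W (C.k q r) + C.dl q (C.t + j) r ∧
      off C.W (C.k q r) + C.dl q (C.t + j) r < C.Z + C.b + 2) ∧
    (∀ i < C.t, (C.bt q i r = C.bt q (C.t + j) r → C.dl q i r < C.dl q (C.t + j) r) ∧
      (C.bt q i r ≠ C.bt q (C.t + j) r → C.dl q (C.t + j) r < C.dl q i r + C.b + 2)) ∧
    ∀ i < C.s, C.dl q (C.t + j) r < C.dl q (C.t + i) r + C.b + 2 ∧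
      (C.bt q (C.t + i) r = C.bt q (C.t + j) r → C.dl q (C.t + j) r ≤ C.dl q (C.t + i) r + 1 ∧
        (i ≠ j → C.dl q (C.t + j) r ≠ C.dl q (C.t + i) r))

def UB : Prop := ∀ f : ℕ → ℕ, (∀ g ∈ C.gs, f g < 2 * C.W + 2) →
  (∀ g ∈ C.gs, ∀ g' ∈ C.gs, g ≠ g' → off C.W (f g) < C.W → off C.W (f g') < C.W →
    f g ≠ f g' ∧ C.sy q g (f g) ≠ C.sy q g' (f g')) →
  ((2 * C.h q : ℕ) : ℤ) ∣ (C.gs.map fun g => (rowOf (C.h q) C.W (C.v g (f g)) : ℤ) -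
    rowOf (C.h q) C.W g).sum - C.h q → ∃ g ∈ C.gs, (g, f g) ∈ C.hs

def Good : Prop := C.Fix ∧ (C.Z ≤ 2 * C.h q ∧ C.b ≤ C.h q ∧ C.W ≤ C.h q ∧ C.S < C.h q) ∧
  (∀ g ∈ C.gs, Inj (2 * C.h q) fun c => c + off C.W (C.v g (C.k q c)) +
    C.h q * cls C.W (C.v g (C.k q c))) ∧
  (∀ r < 2 * C.h q, C.Row q r ∧ ∀ i < C.t, ∀ j < C.t, C.e q i r = C.e q j r → i = j) ∧
  (∀ i < C.t + C.s, Inj (2 * C.h q) (fun r => r + C.dl q i r + C.h q * C.bt q i r) ∧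
    Inj (2 * C.h q) fun r => 2 * r + C.ga q i r + C.h q * C.ep q i r) ∧ C.UB q

end Cert

theorem cg {h A B : ℤ} (h1 : -h < A) (h2 : A < h) : 2 * h ∣ A + h * B ↔ A = 0 ∧ B % 2 = 0 := by
  constructor
  · rintro ⟨K, hK⟩
    have : A = h * (2 * K - B) := by linarith
    have a1 : 2 * K - B < 1 := by by_contra hc; nlinarith
    have a2 : -1 < 2 * K - B := by by_contra hc; nlinarith
    have a3 : 2 * K - B = 0 := by omega
    rw [a3] at this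
    exact ⟨by simpa using this, by omega⟩
  · rintro ⟨rfl, h2⟩
    exact ⟨B / 2, by rw [zero_add, mul_comm 2 h, mul_assoc]; congr 1; omega⟩

theorem cg1 {h A : ℤ} (h1 : -h < A) (h2 : A < h) (h3 : h ∣ A) : A = 0 := by
  obtain ⟨K, rfl⟩ := h3
  have := (cg (A := h * K) (B := K) h1 h2).1 ⟨K, by ring⟩
  exact this.1

theorem spl {h c A B : ℤ} (h0 : 0 ≤ c) (h1 : c < 2 * h) (h2 : 0 ≤ A) (h3 : A < h)
    (h4 : 2 * h ∣ c - (A + h * B)) : c = A + h * (B % 2) := by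
  rcases lt_or_ge c h with hc | hc
  · have := (cg (h := h) (A := c - A) (B := -B) (by omega) (by omega)).1 (by convert h4 using 1; ring)
    have : B % 2 = 0 := by omega
    rw [this]; omega
  · have := (cg (h := h) (A := c - h - A) (B := 1 - B) (by omega) (by omega)).1
      (by convert h4 using 1; ring)
    have : B % 2 = 1 := by omega
    rw [this]; omega

theorem kap_row {h W x : ℕ} (_hx : x < 2 * h) (ho : off W (kap h W x) < W) :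
    rowOf h W (kap h W x) = x := by
  unfold rowOf cls
  unfold off kap at *
  split_ifs at * <;> omega

theorem row_kap {h W g : ℕ} (hW : W ≤ h) (ho : off W g < W) (hg : g < 2 * W + 2) :
    kap h W (rowOf h W g) = g ∧ rowOf h W g < 2 * h := by
  unfold rowOf cls kap
  unfold off at *
  split_ifs at * <;> omega

theorem rho_inj {q h X r r' : ℕ} (hr : r < 2 * h) (hr' : r' < 2 * h) (e : rho q h X r = rho q h X r')
    (hw : rho q h X r < X ∨ X + 1 ≤ rho q h X r ∧ rho q h X r < 2 * X + 1) :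
    r = r' ∨ r = r' + h ∨ r' = r + h := by
  unfold rho rh0 at *
  split_ifs at * <;> omega

end Pool.Agent.H.MP_46dc5d_co
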