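import Pool.Agent.H.MP_46dc5d_co.B

namespace Pool.Agent.H.MP_46dc5d_co
open Finset Function

theorem eq_of_dvd {n a b : ℕ} (ha : a < n) (hb : b < n) (h : (n : ℤ) ∣ (a : ℤ) - b) : a = b := by
  have := modeq.2 h
  rwa [Nat.mod_eq_of_lt ha, Nat.mod_eq_of_lt hb] at this

theorem dv {n x y : ℤ} (h : n ∣ x) (e : y = x) : n ∣ y := e ▸ h

theorem dv2 {h : ℕ} {x : ℤ} : ((2 * h : ℕ) : ℤ) ∣ x ↔ 2 * (h : ℤ) ∣ x := by push_cast; rfl

theorem cls_le (W g : ℕ) : cls W g ≤ 1 := by unfold cls; split_ifs <;> omega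

namespace Cert
variable (C : Cert) (q a : ℕ)

def E : List (ℕ × ℕ) := C.ub ++ (List.range a).map fun k => (C.ρ, C.D + C.b + 2 * k + 1)
def U (r c : ℕ) : Prop := ∃ p ∈ C.E a, C.rh q r = p.1 ∧ (C.h q : ℤ) ∣ c + C.Z - r - p.2
def fl (r : ℕ) : ℕ := if r < C.h q then r + C.h q else r - C.h q
open Classical in
noncomputable def P (r c : ℕ) : ℕ := if C.k q r ∈ C.gs then
  rowOf (C.h q) C.W (C.v (C.k q r) (C.k q c)) else if C.U q a r c then C.fl q r else r

theorem sg_dvd (hZ : C.Z ≤ 2 * C.h q) (i k r : ℕ) : ((2 * C.h q : ℕ) : ℤ) ∣ (C.sg q i k r : ℤ) -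
    (r + C.dl q i r + 2 * k + C.h q * C.bt q i r - C.Z) := by
  have := modeq.1 (Nat.mod_mod (r + C.dl q i r + 2 * k + C.h q * C.bt q i r + (2 * C.h q - C.Z))
    (2 * C.h q))
  have h2 := dvd_add this (dvd_refl ((2 * C.h q : ℕ) : ℤ))
  unfold sg
  refine dv h2 ?_
  push_cast [Nat.cast_sub hZ]
  ring

theorem bt_le (i r : ℕ) : C.bt q i r ≤ 1 := by
  have : C.e q i r < 256 := Nat.mod_lt _ (by norm_num)
  unfold bt; omega

variable {C q a}

theorem memE {p : ℕ × ℕ} : p ∈ C.E a ↔ p ∈ C.ub ∨ ∃ k < a, p = (C.ρ, C.D + C.b + 2 * k + 1) := by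
  simp [E, eq_comm]

theorem U_fl {r c : ℕ} (hr : r < 2 * C.h q) : C.U q a (C.fl q r) c ↔ C.U q a r c := by
  have e : C.rh q (C.fl q r) = C.rh q r := by
    unfold rh rho fl
    split_ifs <;> first | omega | (congr 1; omega)
  have d : (C.h q : ℤ) ∣ (C.fl q r : ℤ) - r := by
    unfold fl
    split_ifs with h1
    · exact ⟨1, by push_cast; ring⟩
    · exact ⟨-1, by push_cast [Nat.cast_sub (not_lt.1 h1)]; ring⟩
  unfold U
  rw [e]
  refine exists_congr fun p => and_congr_right fun _ => and_congr_right fun _ => ⟨fun h => ?_, fun h => ?_⟩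
  · exact dv (dvd_add h d) (by ring)
  · exact dv (dvd_sub h d) (by ring)

theorem fl_dvd {r : ℕ} : ((2 * C.h q : ℕ) : ℤ) ∣ (C.fl q r : ℤ) - (r + C.h q) := by
  unfold fl
  split_ifs with h1
  · exact ⟨0, by push_cast; ring⟩
  · exact ⟨-1, by push_cast [Nat.cast_sub (not_lt.1 h1)]; ring⟩

section
variable (hG : C.Good q) (ha : a = 0 ∨ C.s = 4 ∧ 2 * a + C.b ≤ C.h q)
include hG ha

theorem E_bd {p : ℕ × ℕ} (hp : p ∈ C.E a) : C.Win p.1 ∧ C.D ≤ p.2 ∧ p.2 < C.D + C.h q := by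
  obtain ⟨⟨-, -, -, f4, f5, -⟩, ⟨-, hb, -⟩, -⟩ := hG
  rcases memE.1 hp with h | ⟨k, hk, rfl⟩
  · have := f4 p h
    exact ⟨this.1, this.2.1, by omega⟩
  · exact ⟨f5, by simp only; omega, by simp only; omega⟩

theorem U_ng {r c : ℕ} (hr : r < 2 * C.h q) (hU : C.U q a r c) : C.k q r ∉ C.gs := by
  intro hg
  obtain ⟨p, hp, e, -⟩ := hU
  have := (hG.2.2.2.1 r hr).1.1 hg
  rcases memE.1 hp with h | ⟨k, hk, rfl⟩
  · exact this.1 p h e
  · exact this.2 (by omega) e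

theorem symb {i k r : ℕ} (hr : r < 2 * C.h q)
    (hi : i < C.t ∧ k = 0 ∨ ∃ j < 4, i = C.t + j ∧ k < a) : ((2 * C.h q : ℕ) : ℤ) ∣
    (C.P q a r (C.sg q i k r) + C.sg q i k r : ℕ) -
      ((2 * r + C.ga q i r + C.h q * C.ep q i r : ℕ) + 2 * k - C.Z - C.W) := by
  have hE := fun p => E_bd hG ha (p := p)
  obtain ⟨⟨-, f2, -, f4, -, -, -, -, f9⟩, ⟨hZ, hb, hW, hS⟩, -, g4, -⟩ := hG
  obtain ⟨⟨-, -, r3, r4⟩, -⟩ := g4 r hr
  have hd := C.sg_dvd q hZ i k r
  have hc : C.sg q i k r < 2 * C.h q := Nat.mod_lt _ (by omega)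
  generalize hcc : C.sg q i k r = c at hd hc
  unfold P ga ep
  by_cases hg : C.k q r ∈ C.gs
  · simp only [if_pos hg]
    have o1 := (f2 _ hg).1
    have e1 : rowOf (C.h q) C.W (C.k q r) = r := kap_row hr o1
    have e3 : (r : ℤ) = off C.W (C.k q r) + C.h q * cls C.W (C.k q r) := by exact_mod_cast e1.symm
    have e2 : C.v (C.k q r) (C.k q c) = C.v (C.k q r) (C.ct q i r) := by
      unfold ct
      rcases hi with ⟨h1, rfl⟩ | ⟨j, hj, rfl, hk⟩
      · rw [if_pos h1, hcc]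
      · rw [if_neg (by omega)]
        have := (r4 j (by omega)).2.1 hg
        have h5 := spl (h := C.h q) (c := c)
          (A := off C.W (C.k q r) + C.dl q (C.t + j) r + 2 * k - C.Z)
          (B := (cls C.W (C.k q r) + C.bt q (C.t + j) r : ℕ)) (by omega) (by omega) (by omega) (by omega)
          (dv (dv2.1 hd) (by push_cast; linear_combination e3))
        have h6 : (cls C.W (C.k q r) + C.bt q (C.t + j) r) % 2 = 0 ∨
          (cls C.W (C.k q r) + C.bt q (C.t + j) r) % 2 = 1 := by omega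
        rw [show (((cls C.W (C.k q r) + C.bt q (C.t + j) r : ℕ) : ℤ) % 2) =
          (((cls C.W (C.k q r) + C.bt q (C.t + j) r) % 2 : ℕ) : ℤ) by push_cast; rfl] at h5
        rw [show C.k q c = kap (C.h q) C.W c from rfl]
        unfold kap
        rcases h6 with h6 | h6 <;> rw [h6] at h5 ⊢
        · rw [if_pos (by omega), zero_mul, zero_add]
          rcases le_or_gt C.W c with h7 | h7
          · rw [min_eq_right h7]
          · rw [min_eq_left h7.le, (f9 _ hg c h7 (by omega)).1]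
        · rw [if_neg (by omega), show 1 * (C.W + 1) + C.W = 2 * C.W + 1 by omega]
          rcases le_or_gt C.W (c - C.h q) with h7 | h7
          · rw [min_eq_right h7]; congr 1; omega
          · rw [min_eq_left h7.le, (f9 _ hg _ h7 (by omega)).2]
    rw [e2]
    unfold rowOf
    refine dv (dvd_sub hd (dvd_mul_right _ (cls C.W (C.k q r) : ℤ))) ?_
    push_cast [Nat.cast_sub (show off C.W (C.k q r) ≤ C.dl q i r +
      off C.W (C.v (C.k q r) (C.ct q i r)) + C.W by omega)]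
    linear_combination -e3
  · simp only [if_neg hg]
    have hU : C.U q a r c ↔ (C.rh q r, C.dl q i r + 2 * k) ∈ C.E a := by
      have hd' : (C.h q : ℤ) ∣ c + C.Z - r - (C.dl q i r + 2 * k : ℕ) := by
        have := dvd_add (Dvd.dvd.trans ⟨2, by push_cast; ring⟩ hd)
          (dvd_mul_right (C.h q : ℤ) (C.bt q i r))
        refine dv this ?_
        push_cast; ring
      refine ⟨fun ⟨p, hp, e, d⟩ => ?_, fun h => ⟨_, h, rfl, hd'⟩⟩
      have b1 := hE p hp
      have b2 : C.D ≤ C.dl q i r + 2 * k ∧ C.dl q i r + 2 * k < C.D + C.h q := by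
        rcases hi with ⟨h1, rfl⟩ | ⟨j, hj, rfl, hk⟩
        · have := r3 i h1 hg; omega
        · have := (r4 j (by omega)).1 hg; omega
      have := cg1 (h := C.h q) (A := (C.dl q i r + 2 * k : ℕ) - p.2) (by omega) (by omega)
        (dv (dvd_sub d hd') (by ring))
      rw [e, show C.dl q i r + 2 * k = p.2 by omega]
      exact hp
    have key : ∀ F : Prop, [Decidable F] → (C.U q a r c ↔ F) → ((2 * C.h q : ℕ) : ℤ) ∣
        ((@ite _ (C.U q a r c) (Classical.propDecidable _) (C.fl q r) r) + c : ℕ) -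
        ((2 * r + (C.dl q i r + C.W) + C.h q * (if F then C.bt q i r + 1 else C.bt q i r) : ℕ) +
          2 * k - C.Z - C.W) := by
      intro F _ hF
      by_cases h : F
      · rw [if_pos h, if_pos (hF.2 h)]
        refine dv (dvd_add hd (fl_dvd (C := C) (q := q) (r := r))) ?_
        push_cast; ring
      · rw [if_neg h, if_neg (fun h' => h (hF.1 h'))]
        refine dv hd ?_
        push_cast; ring
    rcases hi with ⟨h1, rfl⟩ | ⟨j, hj, rfl, hk⟩
    · rw [if_pos h1]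
      refine key _ (hU.trans (memE.trans ⟨fun h => h.elim id fun ⟨k, _, e⟩ => ?_, Or.inl⟩))
      have := r3 i h1 hg
      simp only [Prod.mk.injEq] at e
      omega
    · rw [if_neg (show ¬C.t + j < C.t by omega)]
      have := (r4 j (by omega)).1 hg
      refine key (C.rh q r = C.ρ ∧ C.dl q (C.t + j) r = C.D + C.b + 1)
        (hU.trans (memE.trans ⟨fun h => h.elim (fun h => ?_) fun ⟨k, _, e⟩ => ?_,
        fun h => Or.inr ⟨k, hk, by rw [h.1, h.2]; congr 1; omega⟩⟩))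
      · have := f4 _ h
        simp only at this
        omega
      · simp only [Prod.mk.injEq] at e
        omega

omit ha in
theorem rowL {r c c' : ℕ} (hc : c < 2 * C.h q) (hc' : c' < 2 * C.h q)
    (hd : ((2 * C.h q : ℕ) : ℤ) ∣ (C.P q a r c + c : ℕ) - (C.P q a r c' + c' : ℕ)) : c = c' := by
  unfold P at hd
  by_cases hg : C.k q r ∈ C.gs
  · simp only [if_pos hg, rowOf] at hd
    exact hG.2.2.1 _ hg c hc c' hc' (modeq.2 (dv hd (by push_cast; ring)))
  · simp only [if_neg hg] at hd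
    have hf := fl_dvd (C := C) (q := q) (r := r)
    have h2 : (C.h q : ℤ) ∣ ((2 * C.h q : ℕ) : ℤ) := ⟨2, by push_cast; ring⟩
    have tr : ∀ x y : ℕ, (C.h q : ℤ) ∣ (x : ℤ) - y → C.U q a r x → C.U q a r y :=
      fun x y d ⟨p, hp, e, d'⟩ => ⟨p, hp, e, dv (dvd_sub d' d) (by ring)⟩
    split_ifs at hd with h1 h3 h3
    · exact eq_of_dvd hc hc' (dv hd (by push_cast; ring))
    · exact (h3 (tr c c' (dv (dvd_sub (h2.trans (dvd_sub hd hf)) dvd_rfl)
        (by push_cast; ring)) h1)).elim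
    · exact (h1 (tr c' c (dv (dvd_sub (dvd_neg.2 (h2.trans (dvd_add hd hf))) dvd_rfl)
        (by push_cast; ring)) h3)).elim
    · exact eq_of_dvd hc hc' (dv hd (by push_cast; ring))

theorem P_sp {r : ℕ} (c : ℕ) (hr : r < 2 * C.h q) : C.P q a r c < 2 * C.h q ∧
    (C.k q r ∈ C.gs → C.k q (C.P q a r c) = C.v (C.k q r) (C.k q c) ∧ C.k q (C.P q a r c) ∈ C.gs) ∧
    (C.k q r ∉ C.gs → C.k q (C.P q a r c) ∉ C.gs) := by
  have hU := U_ng hG ha (r := C.fl q r) (c := c)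
  obtain ⟨⟨-, f2, f3, -⟩, ⟨-, -, hW, -⟩, -⟩ := hG
  have hf : C.fl q r < 2 * C.h q := by unfold fl; split_ifs <;> omega
  have hk : C.k q c < 2 * C.W + 2 := by unfold k kap; split_ifs <;> omega
  unfold P
  split_ifs with h1 h2
  · have m := (f3 _ hk _ h1).1
    have := row_kap hW (f2 _ m).1 (f2 _ m).2
    exact ⟨this.2, fun _ => ⟨this.1, by unfold k at *; rw [this.1]; exact m⟩, fun h => (h h1).elim⟩
  · exact ⟨hf, fun h => (h1 h).elim, fun _ => hU hf ((U_fl hr).2 h2)⟩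
  · exact ⟨hr, fun h => (h1 h).elim, id⟩

theorem colL {c r r' : ℕ} (hr : r < 2 * C.h q) (hr' : r' < 2 * C.h q)
    (hd : ((2 * C.h q : ℕ) : ℤ) ∣ (C.P q a r c : ℤ) - C.P q a r' c) : r = r' := by
  obtain ⟨a1, a2, a3⟩ := P_sp hG ha c hr
  obtain ⟨b1, b2, b3⟩ := P_sp hG ha c hr'
  have e := eq_of_dvd a1 b1 hd
  obtain ⟨⟨-, f2, f3, -⟩, -⟩ := hG
  have hk : C.k q c < 2 * C.W + 2 := by unfold k kap; split_ifs <;> omega
  by_cases h1 : C.k q r ∈ C.gs <;> by_cases h2 : C.k q r' ∈ C.gs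
  · have := (f3 _ hk _ h1).2 _ h2 (by rw [← (a2 h1).1, ← (b2 h2).1, e])
    rw [← kap_row hr (f2 _ h1).1, ← kap_row hr' (f2 _ h2).1]
    exact congrArg _ this
  · exact (b3 h2 (e ▸ (a2 h1).2)).elim
  · exact (a3 h1 (e ▸ (b2 h2).2)).elim
  · have u1 := U_fl (C := C) (q := q) (a := a) (c := c) hr
    have u2 := U_fl (C := C) (q := q) (a := a) (c := c) hr'
    unfold P at e
    rw [if_neg h1, if_neg h2] at e
    split_ifs at e with h3 h4 h4
    · unfold fl at e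
      split_ifs at e <;> omega
    · exact (h4 (e ▸ u1.2 h3)).elim
    · exact (h3 (e ▸ u2.2 h4)).elim
    · exact e

theorem disj {i k j l r : ℕ} (hr : r < 2 * C.h q)
    (hi : i < C.t ∧ k = 0 ∨ ∃ x < 4, i = C.t + x ∧ k < a)
    (hj : j < C.t ∧ l = 0 ∨ ∃ x < 4, j = C.t + x ∧ l < a) (e : C.sg q i k r = C.sg q j l r) :
    i = j ∧ k = l := by
  obtain ⟨-, ⟨hZ, hb, hW, hS⟩, -, g4, -⟩ := hG
  obtain ⟨⟨-, r2, -, r4⟩, r5⟩ := g4 r hr
  have d := dv2.1 (dvd_sub (C.sg_dvd q hZ j l r) (C.sg_dvd q hZ i k r))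
  rw [e] at d
  have b1 := C.bt_le q i r
  have b2 := C.bt_le q j r
  obtain ⟨K, hK⟩ := d
  have hK' : (C.dl q i r : ℤ) + 2 * k - C.dl q j r - 2 * l =
    C.h q * (2 * K + C.bt q j r - C.bt q i r) := by linear_combination hK
  generalize hM : 2 * K + (C.bt q j r : ℤ) - C.bt q i r = M at hK'
  have c0 : i < C.t + C.s ∧ 2 * k ≤ C.h q := by clear hj; rcases hi with h | ⟨x, h⟩ <;> omega
  have c0' : j < C.t + C.s ∧ 2 * l ≤ C.h q := by clear hi; rcases hj with h | ⟨x, h⟩ <;> omega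
  have c1 := r2 i c0.1
  have c2 := r2 j c0'.1
  have m1 : M < 2 := by
    by_contra hc
    have : (C.h q : ℤ) * 2 ≤ C.h q * M := mul_le_mul_of_nonneg_left (by omega) (by omega)
    omega
  have m2 : -2 < M := by
    by_contra hc
    have : (C.h q : ℤ) * M ≤ C.h q * -2 := mul_le_mul_of_nonneg_left (by omega) (by omega)
    omega
  rcases hi with ⟨h1, rfl⟩ | ⟨x, hx, rfl, hk⟩ <;> rcases hj with ⟨h2, rfl⟩ | ⟨y, hy, rfl, hl⟩
  · refine ⟨r5 i h1 j h2 ?_, rfl⟩
    unfold bt dl at *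
    interval_cases M <;> omega
  · have := (r4 y (by omega)).2.2.1 i h1
    interval_cases M <;> omega
  · have := (r4 x (by omega)).2.2.1 j h2
    interval_cases M <;> omega
  · have h1 := (r4 y (by omega)).2.2.2 x (by omega)
    have h2 := (r4 x (by omega)).2.2.2 y (by omega)
    interval_cases M <;> omega

omit ha in
theorem upper (s : ℕ → ℕ) (s1 : ∀ r < 2 * C.h q, s r < 2 * C.h q)
    (s2 : ∀ r < 2 * C.h q, ∀ r' < 2 * C.h q, r ≠ r' → s r ≠ s r' ∧ ¬((2 * C.h q : ℕ) : ℤ) ∣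
      (C.P q a r (s r) + s r : ℕ) - (C.P q a r' (s r') + s r' : ℕ))
    (s3 : ((2 * C.h q : ℕ) : ℤ) ∣ ∑ r ∈ range (2 * C.h q), ((C.P q a r (s r) : ℤ) - r) - C.h q)
    (hn : ∀ r < 2 * C.h q, ¬C.U q a r (s r)) : ∃ r < 2 * C.h q, (C.k q r, C.k q (s r)) ∈ C.hs := by
  obtain ⟨⟨f1, f2, -⟩, ⟨-, -, hW, -⟩, -, -, -, g6⟩ := hG
  have rk := fun g hg => row_kap hW (f2 g hg).1 (f2 g hg).2
  have hP : ∀ g ∈ C.gs, ∀ c, C.P q a (rowOf (C.h q) C.W g) c = rowOf (C.h q) C.W (C.v g (C.k q c)) :=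
    fun g hg c => by unfold P; rw [show C.k q (rowOf (C.h q) C.W g) = g from (rk g hg).1, if_pos hg]
  have hi : ∀ g ∈ C.gs, ∀ g' ∈ C.gs, rowOf (C.h q) C.W g = rowOf (C.h q) C.W g' → g = g' :=
    fun g hg g' hg' e => by rw [← (rk g hg).1, e, (rk g' hg').1]
  obtain ⟨g, hg, h⟩ := g6 (fun g => C.k q (s (rowOf (C.h q) C.W g)))
    (fun g _ => by unfold k kap; split_ifs <;> omega)
    (fun g hg g' hg' hne o1 o2 => by
      have := s2 _ (rk g hg).2 _ (rk g' hg').2 fun e => hne (hi g hg g' hg' e)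
      have e1 := kap_row (s1 _ (rk g hg).2) o1
      have e2 := kap_row (s1 _ (rk g' hg').2) o2
      refine ⟨fun e => this.1 (by rw [← e1, ← e2]; exact congrArg _ e), fun e => this.2 ?_⟩
      rw [hP g hg, hP g' hg']
      unfold sy k at e
      rw [e1, e2] at e
      exact modeq.1 e)
    (by
      rw [← List.sum_toFinset _ f1]
      refine dv s3 ?_
      congr 1
      rw [← sum_subset (s₁ := C.gs.toFinset.image (rowOf (C.h q) C.W)) (s₂ := range (2 * C.h q)),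
        sum_image]
      · exact sum_congr rfl fun g hg => by rw [hP g (List.mem_toFinset.1 hg)]
      · exact fun g hg g' hg' => hi g (List.mem_toFinset.1 hg) g' (List.mem_toFinset.1 hg')
      · intro r hr
        obtain ⟨g, hg, rfl⟩ := mem_image.1 hr
        exact mem_range.2 (rk g (List.mem_toFinset.1 hg)).2
      · intro r hr h2
        have hr := mem_range.1 hr
        unfold P
        rw [if_neg fun hg : C.k q r ∈ C.gs => h2 (mem_image.2 ⟨_, List.mem_toFinset.2 hg, kap_row hr (f2 _ hg).1⟩),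
          if_neg (hn r hr), sub_self])
  exact ⟨_, (rk g hg).2, by rw [show C.k q (rowOf (C.h q) C.W g) = g from (rk g hg).1]; exact h⟩

theorem main : Goal (2 * C.h q) (C.t + 4 * a) := by
  have hv : ∀ x : Fin C.t ⊕ Fin a × Fin 4, ∃ i k, (i < C.t ∧ k = 0 ∨ ∃ j < 4, i = C.t + j ∧ k < a) ∧
      (i, k) = Sum.elim (fun i => (i.1, 0)) (fun p => (C.t + p.2.1, p.1.1)) x := by
    rintro (i | ⟨k, j⟩)
    · exact ⟨i, 0, Or.inl ⟨i.2, rfl⟩, rfl⟩
    · exact ⟨_, k, Or.inr ⟨j, j.2, rfl, k.2⟩, rfl⟩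
  choose I K h1 h2 using hv
  have hG' := hG
  obtain ⟨⟨-, -, -, -, -, f6, f7, -⟩, ⟨hZ, -, -, hS⟩, -, -, g5, -⟩ := hG'
  have hI : ∀ x, I x < C.t + C.s := fun x => by rcases h1 x with h | ⟨x, h⟩ <;> omega
  refine layer1 (C.h q) _ (by omega) (C.P q a) (Fin C.t ⊕ Fin a × Fin 4)
    (Fin C.hs.length ⊕ Fin (C.E a).length × Bool × Bool) (fun x => C.sg q (I x) (K x))
    (fun r c => Sum.elim (fun i => (C.k q r, C.k q c) = C.hs.get i) fun p =>
      C.rh q r = ((C.E a).get p.1).1 ∧ (C.h q : ℤ) ∣ c + C.Z - r - ((C.E a).get p.1).2 ∧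
      decide (r < C.h q) = p.2.1 ∧ decide (c < C.h q) = p.2.2)
    (by simp; ring) (by simp [E]; omega) (fun r _ c hc c' hc' => rowL hG hc hc')
    (fun c _ r hr r' hr' => colL hG ha hr hr') (fun _ _ _ => Nat.mod_lt _ (by omega))
    (fun x r hr r' hr' e => (g5 _ (hI x)).1 r hr r' hr' (modeq.2 ?_))
    (fun x r hr r' hr' e => (g5 _ (hI x)).2 r hr r' hr' (modeq.2 ?_))
    (fun x y hne r hr e => hne ?_) ?_ fun s s1 s2 s3 => ?_
  · have d := dvd_sub (C.sg_dvd q hZ (I x) (K x) r') (C.sg_dvd q hZ (I x) (K x) r)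
    rw [e] at d
    exact dv d (by push_cast; ring)
  · exact dv (dvd_add (dvd_sub (symb hG ha hr' (h1 x)) (symb hG ha hr (h1 x))) e) (by ring)
  · have := disj hG ha hr (h1 x) (h1 y) e
    have e2 := h2 x
    rw [this.1, this.2, h2 y] at e2
    rcases x with x | ⟨x, x'⟩ <;> rcases y with y | ⟨y, y'⟩ <;>
      simp only [Sum.elim_inl, Sum.elim_inr, Prod.mk.injEq, Sum.inl.injEq, Sum.inr.injEq,
        Fin.ext_iff, reduceCtorEq] at e2 ⊢ <;> omega
  · rintro (i | ⟨i, e1, e2⟩) r hr c hc r' hr' c' hc' k1 k2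
    · have := f6 _ (List.get_mem _ i)
      simp only [Sum.elim_inl] at k1 k2
      have k3 := k1.trans k2.symm
      rw [← k1] at this
      simp only [Prod.mk.injEq] at k3 this
      exact ⟨by rw [← kap_row hr this.1, ← kap_row hr' (k3.1 ▸ this.1)]; exact congrArg _ k3.1,
        by rw [← kap_row hc this.2, ← kap_row hc' (k3.2 ▸ this.2)]; exact congrArg _ k3.2⟩
    · obtain ⟨a1, a2, a3, a4⟩ := k1
      obtain ⟨b1, b2, b3, b4⟩ := k2
      have w := (E_bd hG ha (List.get_mem _ i)).1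
      rw [← a1] at w
      have := rho_inj hr hr' (a1.trans b1.symm) w
      have c1 := decide_eq_decide.1 (a3.trans b3.symm)
      have c2 := decide_eq_decide.1 (a4.trans b4.symm)
      obtain rfl : r = r' := by omega
      have := cg1 (h := C.h q) (A := c - c') (by omega) (by omega) (dv (dvd_sub a2 b2) (by ring))
      omega
  · by_cases hn : ∀ r < 2 * C.h q, ¬C.U q a r (s r)
    · obtain ⟨r, hr, h⟩ := upper hG s s1 s2 s3 hn
      obtain ⟨i, hi⟩ := List.get_of_mem h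
      exact ⟨r, hr, .inl i, hi.symm⟩
    · push Not at hn
      obtain ⟨r, hr, p, hp, e, d⟩ := hn
      obtain ⟨i, rfl⟩ := List.get_of_mem hp
      exact ⟨r, hr, .inr (i, _, _), e, d, rfl, rfl⟩

end
end Cert
end Pool.Agent.H.MP_46dc5d_co
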