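import Pool.Agent.H.MP_46dc5d_co.C

namespace Pool.Agent.H.MP_46dc5d_co
open Finset Function

def Same (η X W q p r s : ℕ) : Prop := tau q (2 * q + η) X r = tau p (2 * p + η) X s ∧
  rho q (2 * q + η) X r = rho p (2 * p + η) X s ∧ kap (2 * q + η) W r = kap (2 * p + η) W s

theorem same {η X W q p c e y z : ℕ} (hc : c ≤ 1) (he : e ≤ 1) (hy : y < q + e * η) (hz : z < p + e * η)
    (hm : min y X = min z X) (h1 : W ≤ X) (h2 : X ≤ p) (h3 : p ≤ q) :
    Same η X W q p (c * (2 * q + η) + e * q + y) (c * (2 * p + η) + e * p + z) ∧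
      c * (2 * p + η) + e * p + z < 2 * (2 * p + η) := by
  unfold Same tau rho rh0 kap
  interval_cases c <;> interval_cases e <;> refine ⟨⟨?_, ?_, ?_⟩, by omega⟩ <;> split_ifs <;> omega

theorem dec {η q r : ℕ} (hr : r < 2 * (2 * q + η)) :
    ∃ c ≤ 1, ∃ e ≤ 1, ∃ y < q + e * η, r = c * (2 * q + η) + e * q + y := by
  by_cases h1 : r < q
  · exact ⟨0, by omega, 0, by omega, r, by omega, by omega⟩
  by_cases h2 : r < 2 * q + η
  · exact ⟨0, by omega, 1, by omega, r - q, by omega, by omega⟩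
  by_cases h3 : r < 3 * q + η
  · exact ⟨1, by omega, 0, by omega, r - (2 * q + η), by omega, by omega⟩
  · exact ⟨1, by omega, 1, by omega, r - (3 * q + η), by omega, by omega⟩

theorem comp1 {η X W q p r : ℕ} (h1 : W ≤ X) (h2 : X < p) (h3 : p ≤ q) (hr : r < 2 * (2 * q + η)) :
    ∃ s < 2 * (2 * p + η), Same η X W q p r s := by
  obtain ⟨c, hc, e, he, y, hy, rfl⟩ := dec hr
  have := same (z := min y X) (p := p) hc he hy (by omega) (by omega) h1 h2.le h3
  exact ⟨_, this.2, this.1⟩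

theorem core {κ η X S q p e e' y y' : ℕ} {A M : ℤ} (hk : κ = 1 ∨ κ = 2) (hη : η ≤ 1) (he : e ≤ 1)
    (he' : e' ≤ 1) (hy : y < q + e * η) (hy' : y' < q + e' * η) (h2 : X + S + 3 ≤ p) (h3 : p ≤ q)
    (a1 : A ≤ κ * S) (a2 : -A ≤ κ * S)
    (h : κ * ((y : ℤ) - y') + κ * (e - e') * q + A + (2 * q + η) * M = 0) :
    ∃ z < p + e * η, ∃ z' < p + e' * η, min y X = min z X ∧ min y' X = min z' X ∧
      κ * ((z : ℤ) - z') + κ * (e - e') * p + A + (2 * p + η) * M = 0 ∧ (z = z' → y = y') := by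
  have m1 : M < 3 := by
    by_contra hc
    have : (2 * q + η : ℤ) * 3 ≤ (2 * q + η) * M := mul_le_mul_of_nonneg_left (by omega) (by omega)
    rcases hk with rfl | rfl <;> interval_cases e <;> interval_cases e' <;> omega
  have m2 : -3 < M := by
    by_contra hc
    have : (2 * q + η : ℤ) * M ≤ (2 * q + η) * -3 := mul_le_mul_of_nonneg_left (by omega) (by omega)
    rcases hk with rfl | rfl <;> interval_cases e <;> interval_cases e' <;> omega
  rcases lt_trichotomy (κ * (e - e' : ℤ) + 2 * M) 0 with h0 | h0 | h0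
  · refine ⟨y - (q - p), ?_, y', ?_⟩ <;> rcases hk with rfl | rfl <;> interval_cases e <;>
      interval_cases e' <;> interval_cases η <;> interval_cases M <;> omega
  · refine ⟨y - (min y y' - X), ?_, y' - (min y y' - X), ?_⟩ <;> rcases hk with rfl | rfl <;>
      interval_cases e <;> interval_cases e' <;> interval_cases η <;> interval_cases M <;> omega
  · refine ⟨y, ?_, y' - (q - p), ?_⟩ <;> rcases hk with rfl | rfl <;> interval_cases e <;>
      interval_cases e' <;> interval_cases η <;> interval_cases M <;> omega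

theorem pumpI {κ η X W S L q p : ℕ} (hk : κ = 1 ∨ κ = 2) (hη : η ≤ 1) (h1 : W ≤ X)
    (h2 : X + S + 3 ≤ p) (h3 : p ≤ q) (a b a' b' : ℕ → ℕ)
    (hs : ∀ r < 2 * (2 * q + η), ∀ s < 2 * (2 * p + η), Same η X W q p r s → a r = a' s ∧ b r = b' s)
    (hb : ∀ s < 2 * (2 * p + η), L ≤ a' s ∧ a' s ≤ L + κ * S)
    (hI : Inj (2 * (2 * p + η)) fun r => κ * r + a' r + (2 * p + η) * b' r) :
    Inj (2 * (2 * q + η)) fun r => κ * r + a r + (2 * q + η) * b r := by
  intro r hr r' hr' e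
  obtain ⟨K, hK⟩ := modeq.1 e
  obtain ⟨s, hs1, hs2⟩ := comp1 (p := p) h1 (by omega) h3 hr
  obtain ⟨s', hs1', hs2'⟩ := comp1 (p := p) h1 (by omega) h3 hr'
  have b1 := hb s hs1
  have b2 := hb s' hs1'
  rw [← (hs r hr s hs1 hs2).1] at b1
  rw [← (hs r' hr' s' hs1' hs2').1] at b2
  obtain ⟨c, hc, e, he, y, hy, e1⟩ := dec hr
  obtain ⟨c', hc', e', he', y', hy', e2⟩ := dec hr'
  obtain ⟨z, hz, z', hz', m1, m2, h4, h5⟩ := core (A := (a r : ℤ) - a r')
    (M := κ * (c - c') + (b r - b r') - 2 * K) hk hη he he' hy hy' h2 h3 (by omega) (by omega) (by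
      have e1' := congrArg (Nat.cast : ℕ → ℤ) e1
      have e2' := congrArg (Nat.cast : ℕ → ℤ) e2
      push_cast at hK e1' e2'
      linear_combination hK - κ * e1' + κ * e2')
  have t1 := same (W := W) hc he hy hz m1 h1 (by omega) h3
  have t2 := same (W := W) hc' he' hy' hz' m2 h1 (by omega) h3
  rw [← e1] at t1
  rw [← e2] at t2
  have := hI _ t1.2 _ t2.2 (modeq.2 ⟨K, by
    beta_reduce
    rw [← (hs r hr _ t1.2 t1.1).1, ← (hs r hr _ t1.2 t1.1).2, ← (hs r' hr' _ t2.2 t2.1).1,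
      ← (hs r' hr' _ t2.2 t2.1).2]
    push_cast
    linear_combination h4⟩)
  have : c = c' ∧ e = e' ∧ z = z' := by
    interval_cases c <;> interval_cases c' <;> interval_cases e <;> interval_cases e' <;> omega
  rw [e1, e2, this.1, this.2.1, h5 this.2.2]

end Pool.Agent.H.MP_46dc5d_co
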