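import Pool.Agent.H.MP_46dc5d_co.D

namespace Pool.Agent.H.MP_46dc5d_co
open Finset Function

def nd (f : ℕ → ℕ) (k : ℕ) : ℕ → Bool :=
  Nat.rec (fun _ => true) (fun k ih m => !m.testBit (f k) && ih (m ||| 2 ^ f k)) k

theorem nd_sp (f : ℕ → ℕ) (k : ℕ) : ∀ m, nd f k m = true → (∀ r < k, m.testBit (f r) = false) ∧
    ∀ r < k, ∀ r' < k, f r = f r' → r = r' := by
  induction k with
  | zero => exact fun _ _ => ⟨fun _ h => by omega, fun _ h => by omega⟩
  | succ k ih =>
    intro m h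
    have h : (!m.testBit (f k) && nd f k (m ||| 2 ^ f k)) = true := h
    simp only [Bool.and_eq_true, Bool.not_eq_true'] at h
    obtain ⟨a1, a2⟩ := ih _ h.2
    simp only [Nat.testBit_or, Bool.or_eq_false_iff, Nat.testBit_two_pow, decide_eq_false_iff_not] at a1
    refine ⟨fun r hr => ?_, fun r hr r' hr' e => ?_⟩
    · rcases Nat.lt_succ_iff_lt_or_eq.1 hr with h1 | rfl
      exacts [(a1 r h1).1, h.1]
    · rcases Nat.lt_succ_iff_lt_or_eq.1 hr with h1 | rfl <;>
        rcases Nat.lt_succ_iff_lt_or_eq.1 hr' with h2 | rfl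
      exacts [a2 r h1 r' h2 e, ((a1 r h1).2 e.symm).elim, ((a1 r' h2).2 e).elim, rfl]

def InjB (n : ℕ) (f : ℕ → ℕ) : Prop := nd (fun r => f r % n) n 0 = true
instance (n : ℕ) (f : ℕ → ℕ) : Decidable (InjB n f) := inferInstanceAs (Decidable (_ = true))
theorem InjB.inj {n : ℕ} {f : ℕ → ℕ} (h : InjB n f) : Inj n f := (nd_sp _ _ _ h).2

theorem sum_split (h : ℤ) (a b : ℕ → ℤ) (S : ℤ) (l : List ℕ) (hl : ∀ g ∈ l, -S ≤ a g ∧ a g ≤ S) :
    (l.map fun g => a g + h * b g).sum = (l.map a).sum + h * (l.map b).sum ∧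
      -(l.length * S) ≤ (l.map a).sum ∧ (l.map a).sum ≤ l.length * S := by
  induction l with
  | nil => simp
  | cons g l ih =>
    obtain ⟨h1, h2, h3⟩ := ih fun g hg => hl g (List.mem_cons_of_mem _ hg)
    have := hl g List.mem_cons_self
    simp only [List.map_cons, List.sum_cons, List.length_cons, h1]
    push_cast
    exact ⟨by ring, by linarith, by linarith⟩

namespace Cert
variable (C : Cert) (q : ℕ)

def IP (I : ℕ → (ℕ → ℕ) → Prop) : Prop :=
  (∀ g ∈ C.gs, I (2 * C.h q) fun c => c + off C.W (C.v g (C.k q c)) +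
    C.h q * cls C.W (C.v g (C.k q c))) ∧
  ∀ i < C.t + C.s, I (2 * C.h q) (fun r => r + C.dl q i r + C.h q * C.bt q i r) ∧
    I (2 * C.h q) fun r => 2 * r + C.ga q i r + C.h q * C.ep q i r

def ubc (l : List ℕ) : List (ℕ × ℕ) → ℕ → Bool :=
  List.rec (fun _ s => s % (2 * C.h q) != C.h q) (fun g _ ih u s =>
    (List.range (2 * C.W + 2)).all fun c =>
      if off C.W c < C.W then (C.v g c == C.v g C.W || C.v g c == C.v g (2 * C.W + 1) ||
        decide ((g, c) ∈ C.hs) || u.any (fun p => p.1 == c || p.2 == C.sy q g c) ||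
        ih ((c, C.sy q g c) :: u) (s + rowOf (C.h q) C.W (C.v g c) + (2 * C.h q - rowOf (C.h q) C.W g)))
      else ih u (s + rowOf (C.h q) C.W (C.v g c) + (2 * C.h q - rowOf (C.h q) C.W g))) l

variable {C q}

theorem ubc_sp (hh : 0 < C.h q) (f : ℕ → ℕ) (l : List ℕ) : ∀ u s, C.ubc q l u s = true → l.Nodup →
    (∀ g ∈ l, rowOf (C.h q) C.W g ≤ 2 * C.h q ∧ f g < 2 * C.W + 2 ∧ (g, f g) ∉ C.hs ∧
      (off C.W (f g) < C.W → C.v g (f g) ≠ C.v g C.W ∧ C.v g (f g) ≠ C.v g (2 * C.W + 1) ∧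
        ∀ p ∈ u, p.1 ≠ f g ∧ p.2 ≠ C.sy q g (f g))) →
    (∀ g ∈ l, ∀ g' ∈ l, g ≠ g' → off C.W (f g) < C.W → off C.W (f g') < C.W →
      f g ≠ f g' ∧ C.sy q g (f g) ≠ C.sy q g' (f g')) →
    ¬((2 * C.h q : ℕ) : ℤ) ∣ s + (l.map fun g => (rowOf (C.h q) C.W (C.v g (f g)) : ℤ) -
      rowOf (C.h q) C.W g).sum - C.h q := by
  induction l with
  | nil =>
    intro u s h _ _ _ d
    have h : (s % (2 * C.h q) != C.h q) = true := h
    have := modeq.2 (dv d (y := (s : ℤ) - C.h q) (by simp))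
    rw [Nat.mod_eq_of_lt (show C.h q < 2 * C.h q by omega)] at this
    simp [this] at h
  | cons g l ih =>
    intro u s h hn h1 h2 d
    obtain ⟨a1, a2, a3, a4⟩ := h1 g List.mem_cons_self
    have h := List.all_eq_true.1 h (f g) (List.mem_range.2 a2)
    rw [List.nodup_cons] at hn
    have d' : ((2 * C.h q : ℕ) : ℤ) ∣ (s + rowOf (C.h q) C.W (C.v g (f g)) +
        (2 * C.h q - rowOf (C.h q) C.W g) : ℕ) + (l.map fun g => (rowOf (C.h q) C.W (C.v g (f g)) : ℤ) -
        rowOf (C.h q) C.W g).sum - C.h q := dv (dvd_add d dvd_rfl) (by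
      simp only [List.map_cons, List.sum_cons]
      push_cast [Nat.cast_sub a1]
      ring)
    have m := fun g hg => h1 g (List.mem_cons_of_mem _ hg)
    have m2 := fun g hg g' hg' => h2 g (List.mem_cons_of_mem _ hg) g' (List.mem_cons_of_mem _ hg')
    split_ifs at h with ho
    · obtain ⟨b1, b2, b3⟩ := a4 ho
      simp only [Bool.or_eq_true, beq_iff_eq, decide_eq_true_eq, List.any_eq_true] at h
      rcases h with (((h | h) | h) | ⟨p, hp, h⟩) | h
      · exact b1 h
      · exact b2 h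
      · exact a3 h
      · exact h.elim (b3 p hp).1 (b3 p hp).2
      · refine ih _ _ h hn.2 (fun g' hg' => ⟨(m g' hg').1, (m g' hg').2.1, (m g' hg').2.2.1,
          fun o => ⟨((m g' hg').2.2.2 o).1, ((m g' hg').2.2.2 o).2.1, fun p hp => ?_⟩⟩) m2 d'
        rcases List.mem_cons.1 hp with rfl | hp
        · exact h2 g List.mem_cons_self g' (List.mem_cons_of_mem _ hg') (fun e => hn.1 (e ▸ hg')) ho o
        · exact ((m g' hg').2.2.2 o).2.2 p hp
    · exact ih _ _ h hn.2 m m2 d'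

theorem ub_of (hF : C.Fix) (hW : C.W ≤ C.h q) (hh : 0 < C.h q) (h : C.ubc q C.gs [] 0 = true) :
    C.UB q := by
  intro f h1 h2 d
  by_contra hn
  push Not at hn
  obtain ⟨f1, f2, -, -, -, f6, -⟩ := hF
  let f' : ℕ → ℕ := fun g => if C.v g (f g) = C.v g C.W then C.W else
    if C.v g (f g) = C.v g (2 * C.W + 1) then 2 * C.W + 1 else f g
  have o1 : ¬off C.W C.W < C.W := by unfold off; split_ifs <;> omega
  have o2 : ¬off C.W (2 * C.W + 1) < C.W := by unfold off; split_ifs <;> omega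
  have k1 : ∀ g, C.v g (f' g) = C.v g (f g) := fun g => by
    simp only [f']; split_ifs with a b
    exacts [a.symm, b.symm, rfl]
  have k2 : ∀ g, off C.W (f' g) < C.W → f' g = f g ∧ C.v g (f g) ≠ C.v g C.W ∧
      C.v g (f g) ≠ C.v g (2 * C.W + 1) := fun g => by
    simp only [f']; split_ifs with a b
    exacts [fun h => (o1 h).elim, fun h => (o2 h).elim, fun _ => ⟨rfl, a, b⟩]
  refine ubc_sp hh f' C.gs [] 0 h f1 (fun g hg => ⟨(row_kap hW (f2 g hg).1 (f2 g hg).2).2.le, ?_,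
    fun hm => hn g hg ((k2 g (f6 _ hm).2).1 ▸ hm), fun o => ?_⟩) (fun g hg g' hg' hne a b => ?_) ?_
  · have := h1 g hg
    simp only [f']; split_ifs <;> omega
  · rw [k1]; exact ⟨(k2 g o).2.1, (k2 g o).2.2, by simp⟩
  · have e1 := (k2 g a).1
    have e2 := (k2 g' b).1
    rw [e1] at a ⊢
    rw [e2] at b ⊢
    exact h2 g hg g' hg' hne a b
  · simp only [k1]
    exact dv d (by simp)

theorem ub_pump {p sp : ℕ} (hF : C.Fix) (hpq : p ≤ q) (h1 : 2 * C.W ≤ C.h p)
    (h2 : C.gs.length * sp < C.h p) (h3 : ∀ g ∈ C.gs, ∀ g' ∈ C.gs, off C.W g ≤ off C.W g' + sp)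
    (h : C.UB p) : C.UB q := by
  intro f a1 a2 d
  obtain ⟨-, f2, f3, -⟩ := hF
  have hh : C.h p ≤ C.h q := by unfold Cert.h; omega
  have mv := fun g hg => (f3 _ (a1 g hg) g hg).1
  refine h f a1 (fun g hg g' hg' hne o1 o2 => ⟨(a2 g hg g' hg' hne o1 o2).1, fun e =>
    (a2 g hg g' hg' hne o1 o2).2 ?_⟩) ?_
  · have b1 := (f2 _ (mv g hg)).1
    have b2 := (f2 _ (mv g' hg')).1
    have := (cg (h := C.h p) (A := off C.W (C.v g (f g)) + off C.W (f g) - off C.W (C.v g' (f g')) -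
      off C.W (f g')) (B := cls C.W (C.v g (f g)) + cls C.W (f g) - cls C.W (C.v g' (f g')) -
      cls C.W (f g')) (by omega) (by omega)).1 (dv (dv2.1 (modeq.1 e)) (by unfold rowOf; push_cast; ring))
    exact modeq.2 (dv2.2 (dv ((cg (h := C.h q) (by omega) (by omega)).2 this)
      (by unfold rowOf; push_cast; ring)))
  · have key := fun H : ℤ => sum_split H (fun g => (off C.W (C.v g (f g)) : ℤ) - off C.W g)
      (fun g => (cls C.W (C.v g (f g)) : ℤ) - cls C.W g) sp C.gs fun g hg => by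
        have := h3 g hg _ (mv g hg)
        have := h3 _ (mv g hg) g hg
        omega
    have e : ∀ H : ℕ, (C.gs.map fun g => (rowOf H C.W (C.v g (f g)) : ℤ) - rowOf H C.W g).sum - H =
        (C.gs.map fun g => (off C.W (C.v g (f g)) : ℤ) - off C.W g).sum +
        H * ((C.gs.map fun g => (cls C.W (C.v g (f g)) : ℤ) - cls C.W g).sum - 1) := fun H => by
      rw [mul_sub, ← add_sub_assoc, ← (key H).1, mul_one]
      congr 3
      funext g
      unfold rowOf; push_cast; ring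
    have h2' : (C.gs.length : ℤ) * sp < C.h p := by exact_mod_cast h2
    have b := (key 0).2
    rw [e] at d ⊢
    exact dv2.2 ((cg (by omega) (by omega)).2 ((cg (h := C.h q) (by omega) (by omega)).1 (dv2.1 d)))

theorem k_sg (hF : C.Fix) (hZ : C.Z + C.W ≤ C.h q) (hS : C.W + C.S ≤ C.h q) {i r : ℕ}
    (hr : r < 2 * C.h q) (hg : C.k q r ∈ C.gs) (hd : C.dl q i r ≤ C.S) :
    C.k q (C.sg q i 0 r) = if off C.W (C.k q r) + C.dl q i r < C.Z then
      (cls C.W (C.k q r) + C.bt q i r + 1) % 2 * (C.W + 1) + C.W else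
      (cls C.W (C.k q r) + C.bt q i r) % 2 * (C.W + 1) +
        min (off C.W (C.k q r) + C.dl q i r - C.Z) C.W := by
  have o1 := (hF.2.1 _ hg).1
  have e1 : rowOf (C.h q) C.W (C.k q r) = r := kap_row hr o1
  have e3 : (r : ℤ) = off C.W (C.k q r) + C.h q * cls C.W (C.k q r) := by exact_mod_cast e1.symm
  have hd := dv2.1 (C.sg_dvd q (by omega) i 0 r)
  have hc : C.sg q i 0 r < 2 * C.h q := Nat.mod_lt _ (by omega)
  generalize C.sg q i 0 r = c at hd hc
  have cs : ∀ x : ℕ, ((x : ℕ) : ℤ) % 2 = ((x % 2 : ℕ) : ℤ) := fun x => by push_cast; rfl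
  split_ifs with h
  · have h5 := spl (h := C.h q) (c := c) (A := off C.W (C.k q r) + C.dl q i r - C.Z + C.h q)
      (B := (cls C.W (C.k q r) + C.bt q i r + 1 : ℕ)) (by omega) (by omega) (by omega) (by omega)
      (dv (dvd_sub hd dvd_rfl) (by push_cast; linear_combination e3))
    rw [cs] at h5
    show kap _ _ _ = _
    unfold kap
    rcases Nat.mod_two_eq_zero_or_one (cls C.W (C.k q r) + C.bt q i r + 1) with h6 | h6 <;>
      rw [h6] at h5 ⊢ <;> split_ifs <;> omega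
  · have h5 := spl (h := C.h q) (c := c) (A := off C.W (C.k q r) + C.dl q i r - C.Z)
      (B := (cls C.W (C.k q r) + C.bt q i r : ℕ)) (by omega) (by omega) (by omega) (by omega)
      (dv hd (by push_cast; linear_combination e3))
    rw [cs] at h5
    show kap _ _ _ = _
    unfold kap
    rcases Nat.mod_two_eq_zero_or_one (cls C.W (C.k q r) + C.bt q i r) with h6 | h6 <;>
      rw [h6] at h5 ⊢ <;> split_ifs <;> omega

end Cert
end Pool.Agent.H.MP_46dc5d_co
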