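import Pool.Agent.H.MP_46dc5d_co.E

namespace Pool.Agent.H.MP_46dc5d_co
open Finset Function

namespace Cert
variable (C : Cert) (q : ℕ)

def Chk : Prop := C.Fix ∧ (C.Z ≤ 2 * C.h q ∧ C.b ≤ C.h q ∧ C.W ≤ C.h q ∧ C.S < C.h q) ∧
  (∀ r < 2 * C.h q, C.Row q r ∧ nd (fun i => C.e q i r) C.t 0 = true) ∧ C.ubc q C.gs [] 0 = true

def Bd (sp L1 L2 S1 : ℕ) : Prop := C.η ≤ 1 ∧ C.W ≤ C.X ∧ C.X < q ∧ C.Z + C.W ≤ C.h q ∧
  C.W + C.S ≤ C.h q ∧ 2 * C.W ≤ C.h q ∧ C.gs.length * sp < C.h q ∧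
  (∀ g ∈ C.gs, ∀ g' ∈ C.gs, off C.W g ≤ off C.W g' + sp) ∧ C.W ≤ S1 ∧
  ∀ r < 2 * C.h q, ∀ i < C.t + C.s, L1 ≤ C.dl q i r ∧ C.dl q i r ≤ L1 + S1 ∧
    L2 ≤ C.ga q i r ∧ C.ga q i r ≤ L2 + 2 * S1

instance (p : ℕ) : Decidable (C.Win p) := by unfold Win; infer_instance
instance : Decidable C.Fix := by unfold Fix; infer_instance
set_option synthInstance.maxSize 1024 in
instance (r : ℕ) : Decidable (C.Row q r) := by unfold Row; infer_instance
instance : Decidable (C.Chk q) := by unfold Chk; infer_instance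
instance (sp L1 L2 S1 : ℕ) : Decidable (C.Bd q sp L1 L2 S1) := by unfold Bd; infer_instance
instance : Decidable (C.IP q InjB) := by unfold IP; infer_instance

variable {C q}

theorem IP.inj (h : C.IP q InjB) : C.IP q Inj :=
  ⟨fun g hg => (h.1 g hg).inj, fun i hi => ⟨(h.2 i hi).1.inj, (h.2 i hi).2.inj⟩⟩

theorem good (h : C.Chk q) (hI : C.IP q InjB) : C.Good q :=
  ⟨h.1, h.2.1, hI.inj.1, fun r hr => ⟨(h.2.2.1 r hr).1, (nd_sp _ _ _ (h.2.2.1 r hr).2).2⟩, hI.inj.2,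
    ub_of h.1 h.2.1.2.2.1 (by have := h.2.1; omega) h.2.2.2⟩

theorem eq1 {p r s : ℕ} (h : Same C.η C.X C.W q p r s) : (∀ i, C.e q i r = C.e p i s) ∧
    (∀ i, C.dl q i r = C.dl p i s) ∧ (∀ i, C.bt q i r = C.bt p i s) ∧ C.rh q r = C.rh p s ∧
    C.k q r = C.k p s := by
  have : ∀ i, C.e q i r = C.e p i s := fun i => by unfold e Cert.h; rw [h.1]
  exact ⟨this, fun i => by unfold dl; rw [this], fun i => by unfold bt; rw [this], h.2.1, h.2.2⟩

theorem all {p sp L1 L2 S1 : ℕ} (h : C.Chk p) (hB : C.Bd p sp L1 L2 S1)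
    (hI : ∀ q < p + C.X + S1 + 4, q < p ∨ p + C.X + S1 + 3 < q + p ∧ p < q ∨ C.IP q InjB) :
    ∀ q, p ≤ q → C.Good q := by
  obtain ⟨hF, hN, hR, hU⟩ := h
  obtain ⟨b1, b2, b3, b4, b5, b6, b7, b8, b9, b10⟩ := hB
  have hh : ∀ q, p ≤ q → C.h p ≤ C.h q := fun q hq => by unfold Cert.h; omega
  have hRow : ∀ q, p ≤ q → ∀ r < 2 * C.h q,
      C.Row q r ∧ ∀ i < C.t, ∀ j < C.t, C.e q i r = C.e q j r → i = j := fun q hq r hr => by
    obtain ⟨s, hs, h⟩ := comp1 b2 b3 hq hr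
    obtain ⟨e1, e2, e3, e4, e5⟩ := eq1 h
    unfold Row
    simp only [e1, e2, e3, e4, e5]
    exact ⟨(hR s hs).1, (nd_sp _ _ _ (hR s hs).2).2⟩
  have eq2 : ∀ q q', p ≤ q → p ≤ q' → ∀ r < 2 * C.h q, ∀ s < 2 * C.h q', Same C.η C.X C.W q q' r s →
      ∀ i < C.t + C.s, C.ga q i r = C.ga q' i s ∧ C.ep q i r = C.ep q' i s := by
    intro q q' hq hq' r hr s hs h i hi
    obtain ⟨-, e2, e3, e4, e5⟩ := eq1 h
    have := hh q hq
    have := hh q' hq'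
    have e6 : C.k q' s ∈ C.gs → C.ct q i r = C.ct q' i s := fun hg => by
      unfold ct
      rw [k_sg hF (by omega) (by omega) hr (e5 ▸ hg) ((hRow q hq r hr).1.2.1 i hi),
        k_sg hF (by omega) (by omega) hs hg ((hRow q' hq' s hs).1.2.1 i hi), e2, e3, e5]
    unfold ga ep
    rw [e2, e3, e4, e5]
    by_cases hg : C.k q' s ∈ C.gs
    · rw [e6 hg]; exact ⟨rfl, rfl⟩
    · simp only [if_neg hg, and_self]
  intro q hq
  have := hh q hq
  have hI' : C.IP q Inj := by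
    by_cases h0 : q ≤ C.X + S1 + 3 ∨ q = p
    · exact ((hI q (by omega)).resolve_left (by omega)).resolve_left (by omega) |>.inj
    obtain ⟨p0, hp, hp1, hp2, I⟩ : ∃ p0, p ≤ p0 ∧ C.X + S1 + 3 ≤ p0 ∧ p0 ≤ q ∧ C.IP p0 Inj := by
      rcases le_total p (C.X + S1 + 3) with h1 | h1
      · exact ⟨_, h1, le_rfl, by omega,
          ((hI _ (by omega)).resolve_left (by omega)).resolve_left (by omega) |>.inj⟩
      · exact ⟨p, le_rfl, h1, hq,
          ((hI _ (by omega)).resolve_left (by omega)).resolve_left (by omega) |>.inj⟩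
    have bd : ∀ s < 2 * C.h p0, ∀ i < C.t + C.s, L1 ≤ C.dl p0 i s ∧ C.dl p0 i s ≤ L1 + S1 ∧
        L2 ≤ C.ga p0 i s ∧ C.ga p0 i s ≤ L2 + 2 * S1 := fun s hs i hi => by
      obtain ⟨u, hu, h⟩ := comp1 b2 b3 hp hs
      rw [(eq1 h).2.1, (eq2 p0 p hp le_rfl s hs u hu h i hi).1]
      exact b10 u hu i hi
    refine ⟨fun g hg => ?_, fun i hi => ⟨?_, ?_⟩⟩
    · have := pumpI (κ := 1) (L := 0) (Or.inl rfl) b1 b2 hp1 hp2 (fun c => off C.W (C.v g (C.k q c)))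
        (fun c => cls C.W (C.v g (C.k q c))) (fun c => off C.W (C.v g (C.k p0 c)))
        (fun c => cls C.W (C.v g (C.k p0 c)))
        (fun r _ s _ h => by rw [(eq1 h).2.2.2.2]; exact ⟨rfl, rfl⟩) (fun s _ => by
          have hk : C.k p0 s < 2 * C.W + 2 := by unfold k kap; split_ifs <;> omega
          have := (hF.2.1 _ (hF.2.2.1 _ hk g hg).1).1
          omega) (by simp only [one_mul]; exact I.1 g hg)
      simp only [one_mul] at this
      exact this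
    · have := pumpI (κ := 1) (L := L1) (Or.inl rfl) b1 b2 hp1 hp2 (C.dl q i) (C.bt q i) (C.dl p0 i)
        (C.bt p0 i) (fun r _ s _ h => ⟨(eq1 h).2.1 i, (eq1 h).2.2.1 i⟩)
        (fun s hs => by have := bd s hs i hi; omega) (by simp only [one_mul]; exact (I.2 i hi).1)
      simp only [one_mul] at this
      exact this
    · exact pumpI (κ := 2) (L := L2) (Or.inr rfl) b1 b2 hp1 hp2 (C.ga q i) (C.ep q i) (C.ga p0 i)
        (C.ep p0 i) (fun r hr s hs h => eq2 q p0 hq hp r hr s hs h i hi)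
        (fun s hs => (bd s hs i hi).2.2) (I.2 i hi).2
  exact ⟨hF, by omega, hI'.1, hRow q hq, hI'.2,
    ub_pump hF hq b6 b7 b8 (ub_of hF hN.2.2.1 (by omega) hU)⟩

end Cert
end Pool.Agent.H.MP_46dc5d_co
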