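import Pool.Agent.H.MP_46dc5d_co.F
import Pool.Agent.H.MP_46dc5d_co.OA

namespace Pool.Agent.H.MP_46dc5d_co
open Finset Function

theorem ops {n : ℕ} (h : Mols.OA n) : ∃ p q : Fin n → Fin n → Fin n,
    (∀ y, Injective fun x => p x y) ∧ (∀ x, Injective (p x)) ∧ (∀ y, Injective fun x => q x y) ∧
    (∀ x, Injective (q x)) ∧ ∀ x y x' y', p x y = p x' y' → q x y = q x' y' → x = x' ∧ y = y' := by
  obtain ⟨α, I, _, _, g, h1, h2, h3⟩ := h
  let e := Fintype.equivFinOfCardEq h1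
  have hb : ∀ i j, i ≠ j → Bijective fun r => (e (g r i), e (g r j)) := fun i j hij =>
    (Fintype.bijective_iff_surjective_and_card _).2 ⟨fun ⟨a, b⟩ => by
      obtain ⟨r, r1, r2⟩ := h3 i j hij (e.symm a) (e.symm b)
      exact ⟨r, by simp [r1, r2]⟩, by simp [h2, sq]⟩
  choose r hr using (hb 0 1 (by decide)).2
  have r0 : ∀ x y, e (g (r (x, y)) 0) = x := fun x y => congrArg Prod.fst (hr (x, y))
  have r1 : ∀ x y, e (g (r (x, y)) 1) = y := fun x y => congrArg Prod.snd (hr (x, y))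
  have key : ∀ i j, i ≠ j → ∀ x y x' y', e (g (r (x, y)) i) = e (g (r (x', y')) i) →
      e (g (r (x, y)) j) = e (g (r (x', y')) j) → x = x' ∧ y = y' := by
    intro i j hij x y x' y' e1 e2
    have : r (x, y) = r (x', y') := (hb i j hij).1 (Prod.ext e1 e2)
    exact ⟨by rw [← r0 x y, this, r0], by rw [← r1 x y, this, r1]⟩
  exact ⟨fun x y => e (g (r (x, y)) 2), fun x y => e (g (r (x, y)) 3),
    fun y x x' h => (key 1 2 (by decide) x y x' y (by rw [r1, r1]) h).1,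
    fun x y y' h => (key 0 2 (by decide) x y x y' (by rw [r0, r0]) h).2,
    fun y x x' h => (key 1 3 (by decide) x y x' y (by rw [r1, r1]) h).1,
    fun x y y' h => (key 0 3 (by decide) x y x y' (by rw [r0, r0]) h).2, key 2 3 (by decide)⟩

theorem full (n : ℕ) (h : 7 ≤ n) : Goal n n := by
  classical
  obtain ⟨p, q, p1, p2, q1, q2, pq⟩ := ops (Mols.all n (by omega) (by omega))
  choose f hf using fun k x => (Finite.injective_iff_surjective.1 (q2 x)) k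
  have hb : ∀ k, Bijective (f k) := fun k => Finite.injective_iff_bijective.1 fun x x' e =>
    q1 (f k x) (by show q x (f k x) = q x' (f k x); rw [hf, e, hf])
  let s : Fin n → Equiv.Perm (Fin n) := fun k => Equiv.ofBijective (f k) (hb k)
  have hs : ∀ k l, k ≠ l → ∀ x, s k x ≠ s l x := fun k l hkl x e =>
    hkl (by rw [← hf k x, ← hf l x]; exact congrArg _ e)
  let z : Fin n := ⟨0, by omega⟩
  refine ⟨p, p2, p1, ⟨univ.image s, ?_, ?_, ?_⟩, fun S _ h2 => ?_⟩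
  · rw [card_image_of_injective _ fun k l e => by
      by_contra hkl
      exact hs k l hkl z (by rw [e]), card_univ, Fintype.card_fin]
  · intro σ hσ x x' e
    obtain ⟨k, -, rfl⟩ := mem_image.1 hσ
    exact (pq _ _ _ _ e ((hf k x).trans (hf k x').symm)).1
  · intro σ hσ τ hτ hne
    obtain ⟨k, -, rfl⟩ := mem_image.1 hσ
    obtain ⟨l, -, rfl⟩ := mem_image.1 hτ
    exact hs k l fun e => hne (by rw [e])
  · have := card_le_card_of_injOn (s := S) (t := univ) (fun σ => σ z) (fun _ _ => mem_univ _)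
      fun σ hσ τ hτ e => by
        by_contra hne
        exact h2 σ hσ τ hτ hne z e
    simpa using this

/-- from `p'` on directly, from `p` on by pumping -/
theorem Cert.from {C : Cert} (p' p sp L1 L2 S1 : ℕ) (h0 : ∀ q < p, q < p' ∨ C.Chk q ∧ C.IP q InjB)
    (h : C.Chk p) (hB : C.Bd p sp L1 L2 S1)
    (hI : ∀ q < p + C.X + S1 + 4, q < p ∨ p + C.X + S1 + 3 < q + p ∧ p < q ∨ C.IP q InjB)
    (q a : ℕ) (hq : p' ≤ q) (ha : a = 0 ∨ C.s = 4 ∧ 2 * a + C.b ≤ 2 * q + C.η) :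
    Goal (2 * (2 * q + C.η)) (C.t + 4 * a) := by
  refine Cert.main (C := C) (q := q) ?_ ha
  rcases lt_or_ge q p with h1 | h1
  · have := (h0 q h1).resolve_left (by omega)
    exact Cert.good this.1 this.2
  · exact Cert.all h hB hI q h1

/-- keep only the first `k` turned intercalates -/
def Cert.cut (C : Cert) (k : ℕ) : Cert := { C with t := C.hs.length + 4 * k, ub := C.ub.take k }

def Cert.Chk0 (C : Cert) (q : ℕ) : Prop := C.Fix ∧
  (C.Z ≤ 2 * C.h q ∧ C.b ≤ C.h q ∧ C.W ≤ C.h q ∧ C.S < C.h q) ∧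
  ∀ r < 2 * C.h q, C.Row q r ∧ nd (fun i => C.e q i r) C.t 0 = true

instance (C : Cert) (q : ℕ) : Decidable (C.Chk0 q) := by unfold Cert.Chk0; infer_instance

theorem conc (h : ℕ) (L : List (Cert × ℕ × List ℕ))
    (h1 : ∀ x ∈ L, x.1.ubc x.2.1 x.1.gs [] 0 = true ∧
      ∀ k ∈ x.2.2, (x.1.cut k).Chk0 x.2.1 ∧ (x.1.cut k).IP x.2.1 InjB)
    (h2 : ∀ m < 2 * h - 1, m % 4 = 0 ∨ ∃ x ∈ L, x.1.h x.2.1 = h ∧ ∃ k ∈ x.2.2, ∃ a < h,
      (a = 0 ∨ x.1.s = 4 ∧ 2 * a + x.1.b ≤ h) ∧ m = x.1.hs.length + 4 * k + 4 * a)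
    (m : ℕ) (hm : m < 2 * h - 1) (h4 : m % 4 ≠ 0) : Goal (2 * h) m := by
  obtain ⟨⟨c, q, l⟩, hc, rfl, k, hk, a, -, ha, rfl⟩ := (h2 m hm).resolve_left h4
  obtain ⟨a1, a2⟩ := h1 _ hc
  obtain ⟨⟨b1, b2, b3⟩, b4⟩ := a2 k hk
  exact Cert.main (C := c.cut k) (Cert.good ⟨b1, b2, b3, a1⟩ b4) ha

end Pool.Agent.H.MP_46dc5d_co
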