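import Pool.Agent.H.MP_46dc5d_co.Dat

namespace Pool.Agent.H.MP_46dc5d_co

theorem b0_all : ∀ q a, 2 ≤ q → (a = 0 ∨ 4 = 4 ∧ 2 * a + 1 ≤ 2 * q + 1) →
    Goal (2 * (2 * q + 1)) (0 + 4 * a) :=
  Cert.from (C := b0) 2 2 0 1 1 1 (by decide +kernel) (by decide +kernel)
    (by decide +kernel) (by decide +kernel)

theorem b6_all : ∀ q a, 8 ≤ q → (a = 0 ∨ 4 = 4 ∧ 2 * a + 5 ≤ 2 * q + 1) →
    Goal (2 * (2 * q + 1)) (6 + 4 * a) :=
  Cert.from (C := b6) 8 8 2 0 3 10 (by decide +kernel) (by decide +kernel)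
    (by decide +kernel) (by decide +kernel)

theorem b2_all : ∀ q a, 9 ≤ q → (a = 0 ∨ 0 = 4 ∧ 2 * a + 9 ≤ 2 * q + 1) →
    Goal (2 * (2 * q + 1)) (2 + 4 * a) :=
  Cert.from (C := b2) 9 9 4 4 9 8 (by decide +kernel) (by decide +kernel)
    (by decide +kernel) (by decide +kernel)

theorem b3_all : ∀ q a, 9 ≤ q → (a = 0 ∨ 4 = 4 ∧ 2 * a + 7 ≤ 2 * q + 1) →
    Goal (2 * (2 * q + 1)) (3 + 4 * a) :=
  Cert.from (C := b3) 9 9 3 1 3 13 (by decide +kernel) (by decide +kernel)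
    (by decide +kernel) (by decide +kernel)

end Pool.Agent.H.MP_46dc5d_co
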