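import Pool.Agent.H.MP_46dc5d_co.Dat

namespace Pool.Agent.H.MP_46dc5d_co

theorem b11_all : ∀ q a, 9 ≤ q → (a = 0 ∨ 4 = 4 ∧ 2 * a + 7 ≤ 2 * q + 1) →
    Goal (2 * (2 * q + 1)) (11 + 4 * a) :=
  Cert.from (C := b11) 9 10 2 0 4 12 (by decide +kernel) (by decide +kernel)
    (by decide +kernel) (by decide +kernel)

theorem b1_all : ∀ q a, 9 ≤ q → (a = 0 ∨ 4 = 4 ∧ 2 * a + 9 ≤ 2 * q + 1) →
    Goal (2 * (2 * q + 1)) (1 + 4 * a) :=
  Cert.from (C := b1) 9 12 4 4 9 14 (by decide +kernel) (by decide +kernel)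
    (by decide +kernel) (by decide +kernel)

end Pool.Agent.H.MP_46dc5d_co
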