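import Pool.Agent.H.MP_46dc5d_co.Dat

namespace Pool.Agent.H.MP_46dc5d_co

theorem b9_all : ∀ q a, 9 ≤ q → (a = 0 ∨ 4 = 4 ∧ 2 * a + 7 ≤ 2 * q + 1) →
    Goal (2 * (2 * q + 1)) (9 + 4 * a) :=
  Cert.from (C := b9) 9 10 4 2 5 13 (by decide +kernel) (by decide +kernel)
    (by decide +kernel) (by decide +kernel)

end Pool.Agent.H.MP_46dc5d_co
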